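import Pool.Agent.Helper22.SC.Conv

/-! The set of terms `FM x` is uniformly definable. -/

namespace Pool.Agent.Helper44.SC

universe u

open ZFSet
open Pool.Agent.Helper66.SC (Fml Sat IsZF Cls sat_rn mem_Pow img mem_img tc CardLe FM FMn)
open Pool.Agent.Helper22.SC

variable {C : Cls.{u}}
variable {α β γ δ : Type (u + 1)} [Ctx.{u} α] [Ctx.{u} β] [Ctx.{u} γ] [Ctx.{u} δ]

theorem U.FM [ZCls C] {f : Set ZFSet.{u} → Set ZFSet.{u} → α → ZFSet.{u}} (hf : U C f) :
    U C (fun N A a => Pool.Agent.Helper66.SC.FM (f N A a)) := by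
  have h0 : U C (fun _ _ (p : ZFSet.{u}) => Pool.Agent.Helper66.SC.FM p) := by
    have h1 := U.natUnion (C := C) (α := ZFSet.{u}) (z := fun _ _ x => img x (fun y => ZFSet.pair ∅ y))
      (S := fun _ _ _ _ g => g ∪ img (g.prod g) (fun y => ZFSet.pair {∅} y))
      (H := fun _ _ x n => FMn x n) (by apply_rules (transparency := .reducible) (maxDepth := 400) using is_poly)
      (by apply_rules (transparency := .reducible) (maxDepth := 400) using is_poly)
      (fun _ _ _ => rfl) (fun _ _ _ _ => rfl)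
    refine h1.congr ?_
    intro N A _ x _
    ext z
    unfold Pool.Agent.Helper66.SC.FM
    rw [mem_iUnion, mem_iUnion]
    constructor
    · rintro ⟨n, h⟩
      exact ⟨n.down, h⟩
    · rintro ⟨n, h⟩
      exact ⟨⟨n⟩, h⟩
  exact h0.comp hf

attribute [is_poly] U.FM

theorem mem_FM {x w : ZFSet.{u}} : w ∈ FM x ↔ ∃ n, w ∈ FMn x n := by
  unfold Pool.Agent.Helper66.SC.FM
  rw [mem_iUnion]

theorem FMn_mono {x : ZFSet.{u}} {m n : ℕ} (h : m ≤ n) : FMn x m ⊆ FMn x n := by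
  induction n, h using Nat.le_induction with
  | base => exact fun _ h => h
  | succ n _ ih =>
    intro z hz
    change z ∈ FMn x n ∪ _
    rw [mem_union]
    exact Or.inl (ih hz)

theorem leaf_mem {x y : ZFSet.{u}} (h : y ∈ x) : ZFSet.pair ∅ y ∈ FM x :=
  mem_FM.2 ⟨0, mem_img.2 ⟨y, h, rfl⟩⟩

theorem node_mem {x s t : ZFSet.{u}} (hs : s ∈ FM x) (ht : t ∈ FM x) :
    ZFSet.pair {∅} (ZFSet.pair s t) ∈ FM x := by
  obtain ⟨m, hm⟩ := mem_FM.1 hs
  obtain ⟨n, hn⟩ := mem_FM.1 ht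
  refine mem_FM.2 ⟨max m n + 1, ?_⟩
  change _ ∈ FMn x (max m n) ∪ _
  rw [mem_union]
  right
  rw [mem_img]
  exact ⟨_, pair_mem_prod.2 ⟨FMn_mono (le_max_left _ _) hm, FMn_mono (le_max_right _ _) hn⟩, rfl⟩

end Pool.Agent.Helper44.SC
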