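import Pool.Agent.Helper44.SC.FMU
import Pool.Agent.Helper66.SC.Levy

/-! Small transitive models: Skolem hulls and the Mostowski collapse. -/

namespace Pool.Agent.Helper44.SC

universe u

open ZFSet
open Pool.Agent.Helper66.SC (Fml Sat IsZF Cls sat_rn mem_Pow img mem_img tc CardLe FM FMn UD ud_satRel0 oz WO)
open Pool.Agent.Helper22.SC

/-! ### The Mostowski collapse -/

/-- the collapse of `X` -/
noncomputable def col (X x : ZFSet.{u}) : ZFSet.{u} :=
  ZFSet.range (fun y : {y // y ∈ x ∩ X} => col X y.1)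
termination_by x.rank
decreasing_by exact rank_lt_of_mem (mem_inter.1 y.2).1

theorem mem_col {X x z : ZFSet.{u}} : z ∈ col X x ↔ ∃ y ∈ x, y ∈ X ∧ z = col X y := by
  rw [col, ZFSet.mem_range]
  constructor
  · rintro ⟨⟨y, hy⟩, rfl⟩
    exact ⟨y, (mem_inter.1 hy).1, (mem_inter.1 hy).2, rfl⟩
  · rintro ⟨y, hy, hy', rfl⟩
    exact ⟨⟨y, mem_inter.2 ⟨hy, hy'⟩⟩, rfl⟩

variable {C : Cls.{u}}
variable {α β γ δ : Type (u + 1)} [Ctx.{u} α] [Ctx.{u} β] [Ctx.{u} γ] [Ctx.{u} δ]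

theorem U.col [ZCls C] {f g : Set ZFSet.{u} → Set ZFSet.{u} → α → ZFSet.{u}} (hf : U C f) (hg : U C g) :
    U C (fun N A a => SC.col (f N A a) (g N A a)) := by
  have h0 : U C (fun _ _ (p : ZFSet.{u} × ZFSet.{u}) => SC.col p.1 p.2) := by
    refine U.memrec (α := ZFSet.{u}) (G := fun _ _ X x => SC.col X x)
      (F := fun _ _ p => img (p.1.2 ∩ p.1.1) (fun y => app p.2 y)) ?_ ?_
    · refine U.img (by apply_rules (transparency := .reducible) (maxDepth := 400) using is_poly) ?_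
      apply_rules (transparency := .reducible) (maxDepth := 400) using is_poly
    · intro N A hN X hX x hx
      ext z
      rw [mem_col, mem_img]
      constructor
      · rintro ⟨y, hy, hy', rfl⟩
        exact ⟨y, mem_inter.2 ⟨hy, hy'⟩, app_gr hy⟩
      · rintro ⟨y, hy, rfl⟩
        rw [mem_inter] at hy
        exact ⟨y, hy.1, hy.2, app_gr hy.1⟩
  exact h0.comp (hf.prodMk hg)

attribute [is_poly] U.col

theorem col_fix {X T : ZFSet.{u}} (hT : T.IsTransitive) (hTX : T ⊆ X) : ∀ x ∈ T, col X x = x := by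
  intro x
  refine mem_wf.induction (C := fun x => x ∈ T → col X x = x) x ?_
  intro x ih hx
  ext z
  rw [mem_col]
  constructor
  · rintro ⟨y, hy, _, rfl⟩
    rw [ih y hy (hT.mem_trans hy hx)]
    exact hy
  · intro hz
    have hzT := hT.mem_trans hz hx
    exact ⟨z, hz, hTX hzT, (ih z hz hzT).symm⟩

/-- extensional sets -/
def Extl (X : ZFSet.{u}) : Prop :=
  ∀ x ∈ X, ∀ y ∈ X, x ≠ y → ∃ z ∈ X, (z ∈ x ∧ z ∉ y) ∨ (z ∈ y ∧ z ∉ x)

theorem col_inj {X : ZFSet.{u}} (hX : Extl X) : ∀ x ∈ X, ∀ y ∈ X, col X x = col X y → x = y := by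
  intro x
  refine mem_wf.induction (C := fun x => x ∈ X → ∀ y ∈ X, col X x = col X y → x = y) x ?_
  intro x ih hx y hy h
  by_contra hne
  obtain ⟨z, hz, h1 | h1⟩ := hX x hx y hy hne
  · have h2 : col X z ∈ col X y := by
      rw [← h, mem_col]
      exact ⟨z, h1.1, hz, rfl⟩
    rw [mem_col] at h2
    obtain ⟨z', hz', hz'X, h3⟩ := h2
    have := ih z h1.1 hz z' hz'X h3
    subst this
    exact h1.2 hz'
  · have h2 : col X z ∈ col X x := by
      rw [h, mem_col]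
      exact ⟨z, h1.1, hz, rfl⟩
    rw [mem_col] at h2
    obtain ⟨z', hz', hz'X, h3⟩ := h2
    have := ih z' hz' hz'X z hz h3.symm
    subst this
    exact h1.2 hz'

theorem sat_col {X : ZFSet.{u}} (hX : Extl X) {k : ℕ} (φ : Fml k) :
    ∀ v : Fin k → ZFSet.{u}, (∀ i, v i ∈ X) →
      (Sat {z | z ∈ X} ∅ φ v ↔ Sat {z | z ∈ img X (col X)} ∅ φ (fun i => col X (v i))) := by
  induction φ with
  | mem i j =>
    intro v hv
    change v i ∈ v j ↔ col X (v i) ∈ col X (v j)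
    rw [mem_col]
    constructor
    · intro h
      exact ⟨v i, h, hv i, rfl⟩
    · rintro ⟨y, hy, hyX, h⟩
      rw [col_inj hX _ (hv i) _ hyX h]
      exact hy
  | eq i j =>
    intro v hv
    change v i = v j ↔ col X (v i) = col X (v j)
    exact ⟨fun h => by rw [h], fun h => col_inj hX _ (hv i) _ (hv j) h⟩
  | pr i =>
    intro v hv
    exact ⟨fun h => absurd h (Set.notMem_empty _), fun h => absurd h (Set.notMem_empty _)⟩
  | neg φ ih =>
    intro v hv
    exact not_congr (ih v hv)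
  | and φ ψ ih1 ih2 =>
    intro v hv
    exact and_congr (ih1 v hv) (ih2 v hv)
  | @ex k φ ih =>
    intro v hv
    have e : ∀ x, (fun i => col X ((Fin.cons x v : Fin (k + 1) → ZFSet.{u}) i)) =
        (Fin.cons (col X x) (fun i => col X (v i)) : Fin (k + 1) → ZFSet.{u}) := by
      intro x
      funext i
      refine Fin.cases ?_ (fun j => ?_) i
      · rfl
      · rfl
    constructor
    · rintro ⟨x, hx, h⟩
      refine ⟨col X x, mem_img.2 ⟨x, hx, rfl⟩, ?_⟩
      have := (ih (Fin.cons x v) (fun i => by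
        refine Fin.cases ?_ (fun j => ?_) i
        · exact hx
        · exact hv j)).1 h
      rwa [e] at this
    · rintro ⟨z, hz, h⟩
      obtain ⟨x, hx, rfl⟩ := mem_img.1 hz
      refine ⟨x, hx, ?_⟩
      refine (ih (Fin.cons x v) (fun i => by
        refine Fin.cases ?_ (fun j => ?_) i
        · exact hx
        · exact hv j)).2 ?_
      rw [e]
      exact h

/-! ### Skolem functions -/

/-- the element of `b` with least index -/
noncomputable def pick (h b : ZFSet.{u}) : ZFSet.{u} :=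
  ⋃₀ (ZFSet.sep (fun x => ∀ x' ∈ b, app h x ⊆ app h x') b)

theorem pick_mem {h b t : ZFSet.{u}} {o : Ordinal.{u}} (hf : ZFSet.IsFunc t (oz o) h)
    (hi : ∀ y ∈ t, ∀ y' ∈ t, ∀ z, ZFSet.pair y z ∈ h → ZFSet.pair y' z ∈ h → y = y') (hb : b ⊆ t)
    (hne : ∃ x, x ∈ b) : pick h b ∈ b := by
  have happ : ∀ x ∈ t, ∃ a : Ordinal.{u}, app h x = oz a ∧ ZFSet.pair x (oz a) ∈ h := by
    intro x hx
    obtain ⟨z, hz, hz'⟩ := hf.2 x hx
    have h1 := (pair_mem_prod.1 (hf.1 hz)).2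
    obtain ⟨a, _, rfl⟩ := Ordinal.mem_toZFSet_iff.1 h1
    exact ⟨a, app_eq hz hz', hz⟩
  choose! g hg1 hg2 using happ
  obtain ⟨x, hx, hmin⟩ := WellFounded.has_min (InvImage.wf g (wellFounded_lt (α := Ordinal.{u}))) {x | x ∈ b} hne
  have h1 : ZFSet.sep (fun x => ∀ x' ∈ b, app h x ⊆ app h x') b = ({x} : ZFSet.{u}) := by
    ext z
    rw [mem_sep, mem_singleton]
    constructor
    · rintro ⟨hz, h2⟩
      have h3 := h2 x hx
      rw [hg1 z (hb hz), hg1 x (hb hx), Ordinal.toZFSet_subset_toZFSet_iff] at h3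
      have h4 : g z = g x := le_antisymm h3 (not_lt.1 (hmin z hz))
      have h5 := hg2 z (hb hz)
      rw [h4] at h5
      exact hi z (hb hz) x (hb hx) _ h5 (hg2 x (hb hx))
    · rintro rfl
      refine ⟨hx, fun x' hx' => ?_⟩
      rw [hg1 z (hb hx), hg1 x' (hb hx'), Ordinal.toZFSet_subset_toZFSet_iff]
      exact not_lt.1 (hmin x' hx')
  unfold pick
  rw [h1, sUnion_singleton]
  exact hx

theorem pick_empty {h b : ZFSet.{u}} (hne : ¬ ∃ x, x ∈ b) : pick h b = ∅ := by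
  have : b = ∅ := by
    rw [eq_empty]
    intro y hy
    exact hne ⟨y, hy⟩
  subst this
  unfold pick
  ext z
  simp

/-- entries of coded lists -/
noncomputable def nth : ℕ → ZFSet.{u} → ZFSet.{u}
  | 0, l => pfst l
  | n + 1, l => nth n (psnd l)

theorem U.nth [ZCls C] (n : ℕ) {f : Set ZFSet.{u} → Set ZFSet.{u} → α → ZFSet.{u}} (hf : U C f) :
    U C (fun N A a => SC.nth n (f N A a)) := by
  induction n generalizing f with
  | zero => exact U.pfst hf
  | succ n ih => exact ih (U.psnd hf)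

/-- the Skolem function of `ψ` in `t` -/
noncomputable def Sk {k : ℕ} (ψ : Fml (k + 1)) (t h l : ZFSet.{u}) : ZFSet.{u} :=
  pick h (ZFSet.sep (fun x => Sat {z | z ∈ t} ∅ ψ (Fin.cons x (fun i : Fin k => nth i l))) t)

theorem U.sk [ZCls C] {k : ℕ} (ψ : Fml (k + 1)) {f g l : Set ZFSet.{u} → Set ZFSet.{u} → α → ZFSet.{u}}
    (hf : U C f) (hg : U C g) (hl : U C l) : U C (fun N A a => Sk ψ (f N A a) (g N A a) (l N A a)) := by
  refine U.app3 (h := fun _ _ t h l => Sk ψ t h l) ?_ hf hg hl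
  have h1 : URel C (fun _ _ (w : Fin (k + 2) → ZFSet.{u}) => Sat {z | z ∈ w 0} ∅ ψ (Fin.tail w)) :=
    ud_iff.1 (ud_satRel0 C (fun _ _ h => (ZCls.isZF h).trans) ψ)
  have h2 : URel C (fun _ _ (p : ((ZFSet.{u} × ZFSet.{u}) × ZFSet.{u}) × ZFSet.{u}) =>
      Sat {z | z ∈ p.1.1.1} ∅ ψ (Fin.cons p.2 (fun i : Fin k => SC.nth i p.1.2))) := by
    refine h1.comp (f := fun _ _ (p : ((ZFSet.{u} × ZFSet.{u}) × ZFSet.{u}) × ZFSet.{u}) =>
      (Fin.cons p.1.1.1 (Fin.cons p.2 (fun i : Fin k => SC.nth i p.1.2)) : Fin (k + 2) → ZFSet.{u})) ?_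
    refine U.finCons (by apply_rules (transparency := .reducible) (maxDepth := 400) using is_poly)
      (U.finCons (by apply_rules (transparency := .reducible) (maxDepth := 400) using is_poly) ?_)
    exact U.finMk (fun i => U.nth i (by apply_rules (transparency := .reducible) (maxDepth := 400) using is_poly))
  have h3 : U C (fun _ _ (p : (ZFSet.{u} × ZFSet.{u}) × ZFSet.{u}) =>
      ZFSet.sep (fun x => Sat {z | z ∈ p.1.1} ∅ ψ (Fin.cons x (fun i : Fin k => SC.nth i p.2))) p.1.1) :=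
    U.sep (R := fun _ _ (p : (ZFSet.{u} × ZFSet.{u}) × ZFSet.{u}) x =>
      Sat {z | z ∈ p.1.1} ∅ ψ (Fin.cons x (fun i : Fin k => SC.nth i p.2)))
      (by apply_rules (transparency := .reducible) (maxDepth := 400) using is_poly) h2
  have h4 : U C (fun _ _ (p : ZFSet.{u} × ZFSet.{u}) => pick p.1 p.2) := by
    unfold pick
    apply_rules (transparency := .reducible) (maxDepth := 400) using is_poly
  exact h4.comp (f := fun _ _ (p : (ZFSet.{u} × ZFSet.{u}) × ZFSet.{u}) => (p.1.2, ZFSet.sep (fun x => Sat {z | z ∈ p.1.1} ∅ ψ (Fin.cons x (fun i : Fin k => SC.nth i p.2))) p.1.1)) (U.prodMk (by apply_rules (transparency := .reducible) (maxDepth := 400) using is_poly) h3)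

theorem sk_mem {k : ℕ} (ψ : Fml (k + 1)) {t h l : ZFSet.{u}} {o : Ordinal.{u}} (hf : ZFSet.IsFunc t (oz o) h)
    (hi : ∀ y ∈ t, ∀ y' ∈ t, ∀ z, ZFSet.pair y z ∈ h → ZFSet.pair y' z ∈ h → y = y') (h0 : ∅ ∈ t) :
    Sk ψ t h l ∈ t := by
  classical
  unfold Sk
  by_cases hne : ∃ x, x ∈ ZFSet.sep (fun x => Sat {z | z ∈ t} ∅ ψ (Fin.cons x (fun i : Fin k => nth i l))) t
  · exact (mem_sep.1 (pick_mem hf hi (fun x hx => (mem_sep.1 hx).1) hne)).1
  · rw [pick_empty hne]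
    exact h0

theorem sk_sat {k : ℕ} (ψ : Fml (k + 1)) {t h l : ZFSet.{u}} {o : Ordinal.{u}} (hf : ZFSet.IsFunc t (oz o) h)
    (hi : ∀ y ∈ t, ∀ y' ∈ t, ∀ z, ZFSet.pair y z ∈ h → ZFSet.pair y' z ∈ h → y = y') 
    (hex : ∃ x ∈ t, Sat {z | z ∈ t} ∅ ψ (Fin.cons x (fun i : Fin k => nth i l))) :
    Sat {z | z ∈ t} ∅ ψ (Fin.cons (Sk ψ t h l) (fun i : Fin k => nth i l)) := by
  unfold Sk
  obtain ⟨x, hx, hx'⟩ := hex
  have h1 : pick h (ZFSet.sep (fun x => Sat {z | z ∈ t} ∅ ψ (Fin.cons x (fun i : Fin k => nth i l))) t) ∈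
      ZFSet.sep (fun x => Sat {z | z ∈ t} ∅ ψ (Fin.cons x (fun i : Fin k => nth i l))) t := by
    refine pick_mem hf hi (fun x hx => (mem_sep.1 hx).1) ⟨x, ?_⟩
    rw [mem_sep]
    exact ⟨hx, hx'⟩
  exact (mem_sep.1 h1).2

/-- finitely many Skolem functions -/
noncomputable def SkL (t h : ZFSet.{u}) : List (Σ k, Fml (k + 1)) → ZFSet.{u} → ZFSet.{u} → ZFSet.{u}
  | [], _, _ => ∅
  | ψ :: L, n, l => (ZFSet.sep (fun _ => n = ∅) (Sk ψ.2 t h l)) ∪ (ZFSet.sep (fun _ => ¬ n = ∅) (SkL t h L (⋃₀ n) l))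

theorem U.skL [ZCls C] (L : List (Σ k, Fml (k + 1))) {f g n l : Set ZFSet.{u} → Set ZFSet.{u} → α → ZFSet.{u}}
    (hf : U C f) (hg : U C g) (hn : U C n) (hl : U C l) :
    U C (fun N A a => SkL (f N A a) (g N A a) L (n N A a) (l N A a)) := by
  induction L generalizing n with
  | nil => exact U.empty
  | cons ψ L ih =>
    refine U.union (U.sep (R := fun N A a _ => n N A a = ∅) (U.sk ψ.2 hf hg hl) ?_)
      (U.sep (R := fun N A a _ => ¬ n N A a = ∅) (ih (U.sUnion hn)) ?_)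
    · exact URel.eq (hn.comp U.id.fst) U.empty
    · exact (URel.eq (hn.comp U.id.fst) U.empty).not

theorem skL_nil (t h n l : ZFSet.{u}) : SkL t h [] n l = ∅ := rfl

theorem skL_zero (t h l : ZFSet.{u}) (ψ : Σ k, Fml (k + 1)) (L : List (Σ k, Fml (k + 1))) :
    SkL t h (ψ :: L) (nat 0) l = Sk ψ.2 t h l := by
  ext z
  simp [SkL]

theorem nat_succ_ne (n : ℕ) : (nat (n + 1) : ZFSet.{u}) ≠ ∅ := by
  intro h
  have : (nat n : ZFSet.{u}) ∈ (nat (n + 1) : ZFSet.{u}) := nat_mem_nat.2 (Nat.lt_succ_self n)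
  rw [h] at this
  exact notMem_empty _ this

theorem skL_succ (t h l : ZFSet.{u}) (ψ : Σ k, Fml (k + 1)) (L : List (Σ k, Fml (k + 1))) (n : ℕ) :
    SkL t h (ψ :: L) (nat (n + 1)) l = SkL t h L (nat n) l := by
  ext z
  have := nat_succ_ne.{u} n
  simp only [SkL, mem_union, mem_sep, this, and_false, false_or, not_false_eq_true, and_true,
    sUnion_nat_succ]

theorem skL_get (t h l : ZFSet.{u}) (L : List (Σ k, Fml (k + 1))) (n : ℕ) (hn : n < L.length) :
    SkL t h L (nat n) l = Sk (L[n]).2 t h l := by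
  induction L generalizing n with
  | nil => exact absurd hn (by simp)
  | cons ψ L ih =>
    cases n with
    | zero => exact skL_zero t h l ψ L
    | succ n =>
      rw [skL_succ]
      exact ih n (by simpa using hn)

theorem skL_mem {t h n l : ZFSet.{u}} {o : Ordinal.{u}} (hf : ZFSet.IsFunc t (oz o) h)
    (hi : ∀ y ∈ t, ∀ y' ∈ t, ∀ z, ZFSet.pair y z ∈ h → ZFSet.pair y' z ∈ h → y = y') (h0 : ∅ ∈ t)
    (L : List (Σ k, Fml (k + 1))) : SkL t h L n l ∈ t := by
  classical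
  induction L generalizing n with
  | nil => exact h0
  | cons ψ L ih =>
    by_cases hn : n = ∅
    · have : SkL t h (ψ :: L) n l = Sk ψ.2 t h l := by
        ext z
        simp [SkL, hn]
      rw [this]
      exact sk_mem ψ.2 hf hi h0
    · have : SkL t h (ψ :: L) n l = SkL t h L (⋃₀ n) l := by
        ext z
        simp [SkL, hn]
      rw [this]
      exact ih

/-! ### Evaluation of terms -/

/-- leaf values: the element of `T` with index `x` -/
noncomputable def lf (T f x : ZFSet.{u}) : ZFSet.{u} := ⋃₀ (ZFSet.sep (fun y => ZFSet.pair y x ∈ f) T)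

open Classical in
/-- one step of the evaluation; `g` gives the values of the subterms -/
noncomputable def evF (L : List (Σ k, Fml (k + 1))) (t h T f w g : ZFSet.{u}) : ZFSet.{u} :=
  if pfst w = ∅ then ZFSet.pair ∅ (ZFSet.pair (lf T f (psnd w)) ∅) else
    ZFSet.pair (insert (pfst (app g (pfst (psnd w)))) (pfst (app g (pfst (psnd w)))))
      (ZFSet.pair (SkL t h L (pfst (app g (pfst (psnd w)))) (psnd (psnd (app g (psnd (psnd w))))))
        (ZFSet.pair (pfst (psnd (app g (pfst (psnd w))))) (psnd (psnd (app g (psnd (psnd w)))))))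

/-- evaluation of terms: number, value, list -/
noncomputable def ev (L : List (Σ k, Fml (k + 1))) (t h T f : ZFSet.{u}) (w : ZFSet.{u}) : ZFSet.{u} :=
  rrec (evF L t h T f) tc w

theorem rank_lt_tc {x : ZFSet.{u}} : ∀ y ∈ tc x, ZFSet.rank y < ZFSet.rank x := by
  intro y hy
  have := rank_lt_of_mem hy
  rwa [rank_tc] at this

theorem ev_eq (L : List (Σ k, Fml (k + 1))) (t h T f : ZFSet.{u}) (w : ZFSet.{u}) :
    ev L t h T f w = evF L t h T f w (gr (tc w) (ev L t h T f)) :=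
  rrec_eq rank_lt_tc

theorem ev_leaf (L : List (Σ k, Fml (k + 1))) (t h T f x : ZFSet.{u}) :
    ev L t h T f (ZFSet.pair ∅ x) = ZFSet.pair ∅ (ZFSet.pair (lf T f x) ∅) := by
  rw [ev_eq]
  unfold evF
  rw [pfst_pair, if_pos rfl, psnd_pair]

theorem mem_tc_pair {x y : ZFSet.{u}} : x ∈ tc (ZFSet.pair x y) ∧ y ∈ tc (ZFSet.pair x y) := by
  have h1 : ({x, y} : ZFSet.{u}) ∈ tc (ZFSet.pair x y) := subset_tc _ (by simp [ZFSet.pair])
  exact ⟨tc_isTransitive _ _ h1 (by simp), tc_isTransitive _ _ h1 (by simp)⟩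

theorem ev_node (L : List (Σ k, Fml (k + 1))) (t h T f s r : ZFSet.{u}) :
    ev L t h T f (ZFSet.pair {∅} (ZFSet.pair s r)) =
      ZFSet.pair (insert (pfst (ev L t h T f s)) (pfst (ev L t h T f s)))
        (ZFSet.pair (SkL t h L (pfst (ev L t h T f s)) (psnd (psnd (ev L t h T f r))))
          (ZFSet.pair (pfst (psnd (ev L t h T f s))) (psnd (psnd (ev L t h T f r))))) := by
  have h1 : ZFSet.pair s r ∈ tc (ZFSet.pair {∅} (ZFSet.pair s r)) := mem_tc_pair.2
  have h2 : ({s, r} : ZFSet.{u}) ∈ tc (ZFSet.pair {∅} (ZFSet.pair s r)) :=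
    tc_isTransitive _ _ h1 (by simp [ZFSet.pair])
  have hs : s ∈ tc (ZFSet.pair {∅} (ZFSet.pair s r)) := tc_isTransitive _ _ h2 (by simp)
  have hr : r ∈ tc (ZFSet.pair {∅} (ZFSet.pair s r)) := tc_isTransitive _ _ h2 (by simp)
  have hne : ¬ (({∅} : ZFSet.{u}) = ∅) := by
    intro h
    have : (∅ : ZFSet.{u}) ∈ ({∅} : ZFSet.{u}) := mem_singleton.2 rfl
    rw [h] at this
    exact notMem_empty _ this
  rw [ev_eq]
  unfold evF
  rw [pfst_pair, if_neg hne, psnd_pair, pfst_pair, psnd_pair, app_gr hs, app_gr hr]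

open Classical in
theorem U.evF [ZCls C] (L : List (Σ k, Fml (k + 1)))
    {f1 f2 f3 f4 f5 f6 : Set ZFSet.{u} → Set ZFSet.{u} → α → ZFSet.{u}}
    (h1 : U C f1) (h2 : U C f2) (h3 : U C f3) (h4 : U C f4) (h5 : U C f5) (h6 : U C f6) :
    U C (fun N A a => SC.evF L (f1 N A a) (f2 N A a) (f3 N A a) (f4 N A a) (f5 N A a) (f6 N A a)) := by
  unfold SC.evF
  refine U.ite (R := fun N A a => pfst (f5 N A a) = ∅) ?_ ?_ ?_
  · apply_rules (transparency := .reducible) (maxDepth := 400) using is_poly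
  · refine U.pair U.empty (U.pair ?_ U.empty)
    have : U C (fun _ _ (p : (ZFSet.{u} × ZFSet.{u}) × ZFSet.{u}) => lf p.1.1 p.1.2 p.2) := by
      unfold lf
      apply_rules (transparency := .reducible) (maxDepth := 400) using is_poly
    exact this.comp (f := fun N A a => ((f3 N A a, f4 N A a), psnd (f5 N A a))) (by
      apply_rules (transparency := .reducible) (maxDepth := 400) using is_poly)
  · refine U.pair (by apply_rules (transparency := .reducible) (maxDepth := 400) using is_poly) (U.pair ?_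
      (by apply_rules (transparency := .reducible) (maxDepth := 400) using is_poly))
    exact U.skL L h1 h2 (by apply_rules (transparency := .reducible) (maxDepth := 400) using is_poly)
      (by apply_rules (transparency := .reducible) (maxDepth := 400) using is_poly)

/-- the evaluation, as a function of the parameters `((t, h), (T, f))` and the term -/
theorem U.ev [ZCls C] (L : List (Σ k, Fml (k + 1)))
    {f1 f2 f3 f4 f5 : Set ZFSet.{u} → Set ZFSet.{u} → α → ZFSet.{u}}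
    (h1 : U C f1) (h2 : U C f2) (h3 : U C f3) (h4 : U C f4) (h5 : U C f5) :
    U C (fun N A a => SC.ev L (f1 N A a) (f2 N A a) (f3 N A a) (f4 N A a) (f5 N A a)) := by
  unfold SC.ev
  refine U.rrec (F := fun N A a w g => SC.evF L (f1 N A a) (f2 N A a) (f3 N A a) (f4 N A a) w g)
    (P := fun _ _ _ x => tc x) ?_ ?_ ?_ h5
  · exact U.evF L (h1.comp U.id.fst.fst) (h2.comp U.id.fst.fst) (h3.comp U.id.fst.fst)
      (h4.comp U.id.fst.fst) U.id.fst.snd U.id.snd
  · apply_rules (transparency := .reducible) (maxDepth := 400) using is_poly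
  · intro N A _ a _ x _ y hy
    exact rank_lt_tc y hy

/-- the value of a term -/
noncomputable def vl (L : List (Σ k, Fml (k + 1))) (t h T f : ZFSet.{u}) (w : ZFSet.{u}) : ZFSet.{u} :=
  pfst (psnd (ev L t h T f w))

/-- the list of a term -/
noncomputable def ls (L : List (Σ k, Fml (k + 1))) (t h T f : ZFSet.{u}) (w : ZFSet.{u}) : ZFSet.{u} :=
  psnd (psnd (ev L t h T f w))

section hull

variable {L : List (Σ k, Fml (k + 1))} {t h T f : ZFSet.{u}}

theorem vl_leaf (x : ZFSet.{u}) : vl L t h T f (ZFSet.pair ∅ x) = lf T f x := by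
  unfold vl
  rw [ev_leaf, psnd_pair, pfst_pair]

theorem ls_leaf (x : ZFSet.{u}) : ls L t h T f (ZFSet.pair ∅ x) = ∅ := by
  unfold ls
  rw [ev_leaf, psnd_pair, psnd_pair]

theorem ls_node (s r : ZFSet.{u}) : ls L t h T f (ZFSet.pair {∅} (ZFSet.pair s r)) =
    ZFSet.pair (vl L t h T f s) (ls L t h T f r) := by
  unfold ls vl
  rw [ev_node, psnd_pair, psnd_pair]

/-- terms for natural numbers -/
noncomputable def num : ℕ → ZFSet.{u}
  | 0 => ZFSet.pair ∅ ∅
  | n + 1 => ZFSet.pair {∅} (ZFSet.pair (num n) (ZFSet.pair ∅ ∅))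

theorem num_ev (n : ℕ) : pfst (ev L t h T f (num n)) = nat n := by
  induction n with
  | zero =>
    unfold num
    rw [ev_leaf, pfst_pair, nat_zero]
  | succ n ih =>
    unfold num
    rw [ev_node, pfst_pair, ih, nat_succ]

theorem vl_num (n : ℕ) (r : ZFSet.{u}) : vl L t h T f (ZFSet.pair {∅} (ZFSet.pair (num n) r)) =
    SkL t h L (nat n) (ls L t h T f r) := by
  unfold vl
  rw [ev_node, psnd_pair, pfst_pair, num_ev]
  rfl

theorem num_mem {μ : ZFSet.{u}} (hμ : ∅ ∈ μ) (n : ℕ) : num n ∈ FM μ := by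
  induction n with
  | zero => exact leaf_mem hμ
  | succ n ih => exact node_mem ih (leaf_mem hμ)

theorem list_mem {μ : ZFSet.{u}} (hμ : ∅ ∈ μ) (k : ℕ) (w : Fin k → ZFSet.{u}) (hw : ∀ i, w i ∈ FM μ) :
    ∃ r ∈ FM μ, ∀ i : Fin k, nth i (ls L t h T f r) = vl L t h T f (w i) := by
  induction k with
  | zero => exact ⟨ZFSet.pair ∅ ∅, leaf_mem hμ, fun i => i.elim0⟩
  | succ k ih =>
    obtain ⟨r, hr, h1⟩ := ih (fun i => w i.succ) (fun i => hw _)
    refine ⟨ZFSet.pair {∅} (ZFSet.pair (w 0) r), node_mem (hw 0) hr, ?_⟩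
    intro i
    rw [ls_node]
    refine Fin.cases ?_ (fun j => ?_) i
    · change pfst _ = _
      rw [pfst_pair]
    · change nth (j : ℕ) (psnd _) = _
      rw [psnd_pair]
      exact h1 j

theorem vl_mem {μ w : ZFSet.{u}} {o : Ordinal.{u}} (hf : ZFSet.IsFunc t (oz o) h)
    (hi : ∀ y ∈ t, ∀ y' ∈ t, ∀ z, ZFSet.pair y z ∈ h → ZFSet.pair y' z ∈ h → y = y') (h0 : ∅ ∈ t)
    (hT : T ⊆ t)
    (hi2 : ∀ y ∈ T, ∀ y' ∈ T, ∀ z, ZFSet.pair y z ∈ f → ZFSet.pair y' z ∈ f → y = y')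
    (hw : w ∈ FM μ) : vl L t h T f w ∈ t := by
  classical
  obtain ⟨n, hn⟩ := mem_FM.1 hw
  have hlf : ∀ x, lf T f x ∈ t := by
    intro x
    unfold lf
    by_cases hex : ∃ y ∈ T, ZFSet.pair y x ∈ f
    · obtain ⟨y, hy, hy'⟩ := hex
      have : ZFSet.sep (fun y => ZFSet.pair y x ∈ f) T = ({y} : ZFSet.{u}) := by
        ext z
        rw [mem_sep, mem_singleton]
        constructor
        · rintro ⟨hz, hz'⟩
          exact hi2 z hz y hy x hz' hy'
        · rintro rfl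
          exact ⟨hy, hy'⟩
      rw [this, sUnion_singleton]
      exact hT hy
    · have : (⋃₀ (ZFSet.sep (fun y => ZFSet.pair y x ∈ f) T) : ZFSet.{u}) = ∅ := by
        rw [eq_empty]
        intro y hy
        rw [mem_sUnion] at hy
        obtain ⟨z, hz, _⟩ := hy
        rw [mem_sep] at hz
        exact hex ⟨z, hz⟩
      rw [this]
      exact h0
  induction n with
  | zero =>
    obtain ⟨y, _, rfl⟩ := mem_img.1 hn
    rw [vl_leaf]
    exact hlf y
  | succ n ih =>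
    change w ∈ FMn μ n ∪ _ at hn
    rw [mem_union] at hn
    rcases hn with hn | hn
    · exact ih hn
    · obtain ⟨y, hy, rfl⟩ := mem_img.1 hn
      obtain ⟨s, _, r, _, rfl⟩ := mem_prod.1 hy
      unfold vl
      rw [ev_node, psnd_pair, pfst_pair]
      exact skL_mem hf hi h0 L

/-- the hull -/
noncomputable def hull (L : List (Σ k, Fml (k + 1))) (t h T f μ : ZFSet.{u}) : ZFSet.{u} :=
  img (FM μ) (vl L t h T f)

theorem hull_closed {μ : ZFSet.{u}} (hμ : ∅ ∈ μ) {o : Ordinal.{u}} (hf : ZFSet.IsFunc t (oz o) h)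
    (hi : ∀ y ∈ t, ∀ y' ∈ t, ∀ z, ZFSet.pair y z ∈ h → ZFSet.pair y' z ∈ h → y = y')
    {k : ℕ} (ψ : Fml (k + 1)) (hψ : (⟨k, ψ⟩ : Σ k, Fml (k + 1)) ∈ L) (v : Fin k → ZFSet.{u})
    (hv : ∀ i, v i ∈ hull L t h T f μ) (hex : ∃ x ∈ t, Sat {z | z ∈ t} ∅ ψ (Fin.cons x v)) :
    ∃ x ∈ hull L t h T f μ, Sat {z | z ∈ t} ∅ ψ (Fin.cons x v) := by
  have h1 : ∀ i, ∃ w ∈ FM μ, vl L t h T f w = v i := fun i => mem_img.1 (hv i)
  choose w hw hw' using h1
  obtain ⟨r, hr, hr'⟩ := list_mem (L := L) (t := t) (h := h) (T := T) (f := f) hμ k w hw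
  obtain ⟨n, hn, hn'⟩ := List.getElem_of_mem hψ
  have hvr : v = fun i : Fin k => nth i (ls L t h T f r) := by
    funext i
    rw [hr' i, hw' i]
  refine ⟨vl L t h T f (ZFSet.pair {∅} (ZFSet.pair (num n) r)), mem_img.2 ⟨_, node_mem (num_mem hμ n) hr, rfl⟩, ?_⟩
  rw [vl_num, skL_get _ _ _ _ n hn, hn', hvr]
  rw [hvr] at hex
  exact sk_sat ψ hf hi hex

end hull

/-- the existential subformulas -/
def subs : {k : ℕ} → Fml k → List (Σ k, Fml (k + 1))
  | _, .mem _ _ => []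
  | _, .eq _ _ => []
  | _, .pr _ => []
  | _, .neg φ => subs φ
  | _, .and φ ψ => subs φ ++ subs ψ
  | k, .ex φ => ⟨k, φ⟩ :: subs φ

/-- Tarski-Vaught -/
theorem sat_hull {L : List (Σ k, Fml (k + 1))} {X t : ZFSet.{u}} (hXt : X ⊆ t)
    (hcl : ∀ (k : ℕ) (ψ : Fml (k + 1)), (⟨k, ψ⟩ : Σ k, Fml (k + 1)) ∈ L → ∀ v : Fin k → ZFSet.{u},
      (∀ i, v i ∈ X) → (∃ x ∈ t, Sat {z | z ∈ t} ∅ ψ (Fin.cons x v)) →
        ∃ x ∈ X, Sat {z | z ∈ t} ∅ ψ (Fin.cons x v)) {k : ℕ} (φ : Fml k) :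
    subs φ ⊆ L → ∀ v : Fin k → ZFSet.{u}, (∀ i, v i ∈ X) →
      (Sat {z | z ∈ X} ∅ φ v ↔ Sat {z | z ∈ t} ∅ φ v) := by
  induction φ with
  | mem i j => exact fun _ _ _ => Iff.rfl
  | eq i j => exact fun _ _ _ => Iff.rfl
  | pr i => exact fun _ _ _ => Iff.rfl
  | neg φ ih => exact fun hL v hv => not_congr (ih hL v hv)
  | and φ ψ ih1 ih2 =>
    intro hL v hv
    exact and_congr (ih1 (fun x hx => hL (List.mem_append_left _ hx)) v hv)
      (ih2 (fun x hx => hL (List.mem_append_right _ hx)) v hv)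
  | @ex k φ ih =>
    intro hL v hv
    have hφ : (⟨k, φ⟩ : Σ k, Fml (k + 1)) ∈ L := hL List.mem_cons_self
    have hL' : subs φ ⊆ L := fun x hx => hL (List.mem_cons_of_mem _ hx)
    have hc : ∀ x, x ∈ X → ∀ i, (Fin.cons x v : Fin (k + 1) → ZFSet.{u}) i ∈ X := by
      intro x hx i
      refine Fin.cases ?_ (fun j => ?_) i
      · exact hx
      · exact hv j
    constructor
    · rintro ⟨x, hx, h⟩
      exact ⟨x, hXt hx, (ih hL' _ (hc x hx)).1 h⟩
    · rintro ⟨x, hx, h⟩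
      obtain ⟨x', hx', h'⟩ := hcl k φ hφ v hv ⟨x, hx, h⟩
      exact ⟨x', hx', (ih hL' _ (hc x' hx')).2 h'⟩

/-- the formula saying that `v1` and `v2` differ at `v0` -/
def dif : Fml 3 :=
  .neg (.and (.neg (.and (.mem 0 1) (.neg (.mem 0 2)))) (.neg (.and (.mem 0 2) (.neg (.mem 0 1)))))

theorem sat_dif {N A : Set ZFSet.{u}} {z : ZFSet.{u}} {v : Fin 2 → ZFSet.{u}} :
    Sat N A dif (Fin.cons z v) ↔ (z ∈ v 0 ∧ z ∉ v 1) ∨ (z ∈ v 1 ∧ z ∉ v 0) := by
  change ¬ ((¬ (z ∈ v 0 ∧ ¬ z ∈ v 1)) ∧ (¬ (z ∈ v 1 ∧ ¬ z ∈ v 0))) ↔ _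
  tauto

theorem st_G5a : Pool.Agent.Helper66.SC.ST_G5a.{u} := by
  classical
  intro M hM hWO k φ _ T hTM hTt μ hμ hμM hTμ v hv t ht htt hTt' y hy hsat
  obtain ⟨f, hfM, hff, hfi⟩ := hTμ
  obtain ⟨o, hoM, h, hhM, hhf, hhi⟩ := hWO t ht
  obtain ⟨L, hL⟩ : ∃ L : List (Σ k, Fml (k + 1)), L = ⟨k, φ⟩ :: ⟨2, dif⟩ :: subs φ := ⟨_, rfl⟩
  have h0t : ∅ ∈ t := by
    have : ∀ x : ZFSet.{u}, x ∈ t → ∅ ∈ t := by
      intro x
      refine mem_wf.induction (C := fun x => x ∈ t → ∅ ∈ t) x ?_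
      intro x ih hx
      by_cases hne : x = ∅
      · rwa [← hne]
      · have hex : ∃ z, z ∈ x := by
          by_contra hc
          push Not at hc
          exact hne ((eq_empty x).2 hc)
        obtain ⟨z, hz⟩ := hex
        exact ih z hz (htt.mem_trans hz hx)
    exact this y hy
  have h0μ : (∅ : ZFSet.{u}) ∈ oz μ := by
    rw [Ordinal.mem_toZFSet_iff]
    exact ⟨0, hμ, by simp⟩
  obtain ⟨X, hX⟩ : ∃ X, X = hull L t h T f (oz μ) := ⟨_, rfl⟩
  have hvlU : U (fun M A => IsZF M A) (fun _ _ (p : (((ZFSet.{u} × ZFSet.{u}) × ZFSet.{u}) × ZFSet.{u}) × ZFSet.{u}) =>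
      vl L p.1.1.1.1 p.1.1.1.2 p.1.1.2 p.1.2 p.2) := by
    unfold vl
    refine U.pfst (U.psnd (U.ev L ?_ ?_ ?_ ?_ ?_)) <;>
    apply_rules (transparency := .reducible) (maxDepth := 400) using is_poly
  have hXM : X ∈ M := by
    have h1 : U (fun M A => IsZF M A) (fun _ _ (p : (((ZFSet.{u} × ZFSet.{u}) × ZFSet.{u}) × ZFSet.{u}) × ZFSet.{u}) =>
        img (Pool.Agent.Helper66.SC.FM p.2) (fun w => vl L p.1.1.1.1 p.1.1.1.2 p.1.1.2 p.1.2 w)) := by
      refine U.img (by apply_rules (transparency := .reducible) (maxDepth := 400) using is_poly) ?_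
      exact hvlU.comp (f := fun _ _ (p : ((((ZFSet.{u} × ZFSet.{u}) × ZFSet.{u}) × ZFSet.{u}) × ZFSet.{u}) × ZFSet.{u}) =>
        (p.1.1, p.2)) (by apply_rules (transparency := .reducible) (maxDepth := 400) using is_poly)
    have h2 := h1.closed hM (a := ((((t, h), T), f), oz μ)) (by simp [ht, hhM, hTM, hfM, hμM])
    rw [in_zfset] at h2
    rw [hX]
    exact h2
  have hXt : X ⊆ t := by
    intro x hx
    rw [hX] at hx
    obtain ⟨w, hw, rfl⟩ := mem_img.1 hx
    exact vl_mem hhf hhi h0t hTt' hfi hw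
  have hTX : T ⊆ X := by
    intro x hx
    obtain ⟨z, hz, _⟩ := hff.2 x hx
    have hz1 : z ∈ oz μ := (pair_mem_prod.1 (hff.1 hz)).2
    rw [hX]
    refine mem_img.2 ⟨ZFSet.pair ∅ z, leaf_mem hz1, ?_⟩
    rw [vl_leaf]
    unfold lf
    have : ZFSet.sep (fun y => ZFSet.pair y z ∈ f) T = ({x} : ZFSet.{u}) := by
      ext w
      rw [mem_sep, mem_singleton]
      constructor
      · rintro ⟨hw, hw'⟩
        exact hfi w hw x hx z hw' hz
      · rintro rfl
        exact ⟨hx, hz⟩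
    rw [this, sUnion_singleton]
  have hcl : ∀ (k : ℕ) (ψ : Fml (k + 1)), (⟨k, ψ⟩ : Σ k, Fml (k + 1)) ∈ L → ∀ v : Fin k → ZFSet.{u},
      (∀ i, v i ∈ X) → (∃ x ∈ t, Sat {z | z ∈ t} ∅ ψ (Fin.cons x v)) →
        ∃ x ∈ X, Sat {z | z ∈ t} ∅ ψ (Fin.cons x v) := by
    intro k ψ hψ v hv hex
    rw [hX] at hv ⊢
    exact hull_closed h0μ hhf hhi ψ hψ v hv hex
  have hXe : Extl X := by
    intro x hx y hy hne
    have h1 : ∃ z ∈ t, Sat {z | z ∈ t} ∅ dif (Fin.cons z ![x, y]) := by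
      by_contra hc
      push Not at hc
      apply hne
      ext z
      constructor
      · intro hz
        by_contra hz'
        exact hc z (htt.mem_trans hz (hXt hx)) (sat_dif.2 (Or.inl ⟨hz, hz'⟩))
      · intro hz
        by_contra hz'
        exact hc z (htt.mem_trans hz (hXt hy)) (sat_dif.2 (Or.inr ⟨hz, hz'⟩))
    obtain ⟨z, hz, h2⟩ := hcl 2 dif (by rw [hL]; simp) ![x, y] (by
      intro i
      fin_cases i
      · exact hx
      · exact hy) h1
    exact ⟨z, hz, sat_dif.1 h2⟩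
  have hcolM : img X (col X) ∈ M := by
    have h1 : U (fun M A => IsZF M A) (fun _ _ (x : ZFSet.{u}) => img x (fun w => col x w)) := by
      apply_rules (transparency := .reducible) (maxDepth := 400) using is_poly
    have h2 := h1.closed hM (a := X) (by simpa using hXM)
    rwa [in_zfset] at h2
  have hfix := col_fix hTt hTX
  refine ⟨img X (col X), hcolM, ?_, ?_, ?_, ?_⟩
  · intro z hz w hw
    obtain ⟨x, hx, rfl⟩ := mem_img.1 hz
    obtain ⟨y, _, hyX, rfl⟩ := mem_col.1 hw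
    exact mem_img.2 ⟨y, hyX, rfl⟩
  · intro x hx
    exact mem_img.2 ⟨x, hTX hx, hfix x hx⟩
  · obtain ⟨x, hx, h1⟩ := hcl k φ (by rw [hL]; exact List.mem_cons_self) v (fun i => hTX (hv i)) ⟨y, hy, hsat⟩
    have hc : ∀ i, (Fin.cons x v : Fin (k + 1) → ZFSet.{u}) i ∈ X := by
      intro i
      refine Fin.cases ?_ (fun j => ?_) i
      · exact hx
      · exact hTX (hv j)
    have h2 := (sat_hull hXt hcl φ (by rw [hL]; intro a ha; simp [ha]) _ hc).2 h1
    have h3 := (sat_col hXe φ _ hc).1 h2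
    refine ⟨col X x, mem_img.2 ⟨x, hx, rfl⟩, ?_⟩
    have e : (fun i => col X ((Fin.cons x v : Fin (k + 1) → ZFSet.{u}) i)) =
        (Fin.cons (col X x) v : Fin (k + 1) → ZFSet.{u}) := by
      funext i
      refine Fin.cases ?_ (fun j => ?_) i
      · rfl
      · exact hfix _ (hv j)
    rwa [e] at h3
  · refine ⟨gr (FM (oz μ)) (fun w => col X (vl L t h T f w)), ?_, ?_, ?_⟩
    · have h1 : U (fun M A => IsZF M A) (fun _ _ (p : ((((ZFSet.{u} × ZFSet.{u}) × ZFSet.{u}) × ZFSet.{u}) × ZFSet.{u}) × ZFSet.{u}) =>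
          gr (Pool.Agent.Helper66.SC.FM p.1.2) (fun w => col p.2 (vl L p.1.1.1.1.1 p.1.1.1.1.2 p.1.1.1.2 p.1.1.2 w))) := by
        refine U.gr (by apply_rules (transparency := .reducible) (maxDepth := 400) using is_poly) ?_
        refine U.col (by apply_rules (transparency := .reducible) (maxDepth := 400) using is_poly) ?_
        exact hvlU.comp (f := fun _ _ (p : (((((ZFSet.{u} × ZFSet.{u}) × ZFSet.{u}) × ZFSet.{u}) × ZFSet.{u}) × ZFSet.{u}) × ZFSet.{u}) =>
          (p.1.1.1, p.2)) (by apply_rules (transparency := .reducible) (maxDepth := 400) using is_poly)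
      have h2 := h1.closed hM (a := (((((t, h), T), f), oz μ), X)) (by simp [ht, hhM, hTM, hfM, hμM, hXM])
      rw [in_zfset] at h2
      exact h2
    · intro x y z h1 h2
      rw [pair_mem_gr] at h1 h2
      rw [h1.2, h2.2]
    · intro z hz
      obtain ⟨x, hx, rfl⟩ := mem_img.1 hz
      rw [hX] at hx
      obtain ⟨w, hw, hw'⟩ := mem_img.1 hx
      refine ⟨w, hw, ?_⟩
      rw [pair_mem_gr]
      exact ⟨hw, by rw [hw']⟩

end Pool.Agent.Helper44.SC
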